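import Mathlib

set_option autoImplicit false

/-!
Linear algebra for the crystalline Tate conjecture: descent of the coefficients, averages.
-/

namespace Pool.Agent.Zk39.K3

open Finset

variable {L V : Type*} [Field L] [AddCommGroup V] [Module L V]

/-- Descent of the coefficients. -/
theorem descent {K₀ : Type*} [Field K₀] (i : K₀ →+* L) (H₀ : AddSubgroup V)
    (free : ∀ T : Finset V, (∀ y ∈ T, y ∈ H₀) →
      (∀ a : V → K₀, ∑ y ∈ T, i (a y) • y = 0 → ∀ y ∈ T, a y = 0) →
      ∀ b : V → L, ∑ y ∈ T, b y • y = 0 → ∀ y ∈ T, b y = 0)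
    (S : Set V) (hS : S ⊆ H₀) {x : V} (hx : x ∈ H₀) (hxS : x ∈ Submodule.span L S) :
    ∃ (T : Finset V) (a : V → K₀), (T : Set V) ⊆ S ∧ x = ∑ y ∈ T, i (a y) • y := by
  classical
  obtain ⟨T, hTS, hxT⟩ := Submodule.mem_span_finite_of_mem_span hxS
  obtain ⟨b, -, hb⟩ := Submodule.mem_span_finset.1 hxT
  clear hxT
  induction hn : T.card using Nat.strong_induction_on generalizing T b with
  | _ n ih =>
  subst hn
  by_cases hind : ∀ a : V → K₀, ∑ y ∈ T, i (a y) • y = 0 → ∀ y ∈ T, a y = 0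
  · by_cases hxT : x ∈ T
    · exact ⟨{x}, fun _ => 1, by simpa using hTS hxT, by simp⟩
    · by_cases hind' : ∀ a : V → K₀, ∑ y ∈ insert x T, i (a y) • y = 0 → ∀ y ∈ insert x T, a y = 0
      · exfalso
        have h1 := free (insert x T) (by
          intro y hy
          rcases Finset.mem_insert.1 hy with rfl | h
          · exact hx
          · exact hS (hTS h)) hind' (fun y => if y = x then -1 else b y) (by
          have e3 : ∑ y ∈ T, (if y = x then (-1 : L) else b y) • y = ∑ y ∈ T, b y • y := by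
            refine Finset.sum_congr rfl fun y hy => ?_
            have hyx : y ≠ x := fun h => hxT (h ▸ hy)
            rw [if_neg hyx]
          rw [Finset.sum_insert hxT, if_pos rfl, neg_smul, one_smul, e3, hb, neg_add_cancel])
          x (Finset.mem_insert_self _ _)
        simp at h1
      · push Not at hind'
        obtain ⟨a, ha, y₀, hy₀, hne⟩ := hind'
        rw [Finset.sum_insert hxT] at ha
        have hax : a x ≠ 0 := by
          intro h0
          rw [h0, map_zero, zero_smul, zero_add] at ha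
          rcases Finset.mem_insert.1 hy₀ with h | h
          · exact hne (h ▸ h0)
          · exact hne (hind a ha y₀ h)
        refine ⟨T, fun y => -(a y / a x), hTS, ?_⟩
        have h2 : i (a x) ≠ 0 := by
          intro h
          exact hax ((map_eq_zero i).1 h)
        have h3 : x = (i (a x))⁻¹ • (i (a x) • x) := by
          rw [smul_smul, inv_mul_cancel₀ h2, one_smul]
        rw [eq_neg_of_add_eq_zero_left ha, smul_neg, Finset.smul_sum, ← Finset.sum_neg_distrib] at h3
        refine h3.trans (Finset.sum_congr rfl fun y _ => ?_)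
        rw [smul_smul, map_neg, map_div₀, neg_smul, div_eq_mul_inv, mul_comm]
  · push Not at hind
    obtain ⟨a, ha, y₀, hy₀, hne⟩ := hind
    have h2 : i (a y₀) ≠ 0 := fun h => hne ((map_eq_zero i).1 h)
    have e1 := Finset.add_sum_erase T (fun y => i (a y) • y) hy₀
    have e2 := Finset.add_sum_erase T (fun y => b y • y) hy₀
    rw [ha] at e1
    have h3 : y₀ = -∑ y ∈ T.erase y₀, (i (a y₀))⁻¹ • (i (a y) • y) := by
      have h4 : i (a y₀) • y₀ = -∑ y ∈ T.erase y₀, i (a y) • y := eq_neg_of_add_eq_zero_left e1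
      rw [← Finset.smul_sum, ← smul_neg, ← h4, smul_smul, inv_mul_cancel₀ h2, one_smul]
    refine ih (T.erase y₀).card (Finset.card_erase_lt_of_mem hy₀) (T.erase y₀)
      ((Finset.coe_subset.2 (Finset.erase_subset _ _)).trans hTS)
      (fun y => b y - b y₀ * ((i (a y₀))⁻¹ * i (a y))) ?_ rfl
    have h5 : b y₀ • y₀ = -∑ y ∈ T.erase y₀, b y₀ • ((i (a y₀))⁻¹ • (i (a y) • y)) := by
      refine (congrArg (fun v => b y₀ • v) h3).trans ?_
      rw [smul_neg, Finset.smul_sum]
    rw [← hb, ← e2, h5, neg_add_eq_sub, ← Finset.sum_sub_distrib]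
    refine Finset.sum_congr rfl fun y _ => ?_
    rw [sub_smul, smul_smul, smul_smul, mul_assoc]

/-- The average. -/
noncomputable def avg (G : V →ₗ[L] V) (l : L) (t : ℕ) : V →ₗ[L] V :=
  (t : L)⁻¹ • ∑ u ∈ range t, (l⁻¹) ^ u • G ^ u

theorem avg_apply (G : V →ₗ[L] V) (l : L) (t : ℕ) (y : V) :
    avg G l t y = (t : L)⁻¹ • ∑ u ∈ range t, (l⁻¹) ^ u • (G ^ u) y := by
  simp [avg, LinearMap.sum_apply]

theorem avg_fixed [CharZero L] (G : V →ₗ[L] V) {l : L} (hl : l ≠ 0) {t : ℕ} (ht : 0 < t) {y : V}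
    (h : G y = l • y) : avg G l t y = y := by
  have h1 : ∀ u : ℕ, (G ^ u) y = l ^ u • y := by
    intro u
    induction u with
    | zero => simp
    | succ u ih => rw [pow_succ', Module.End.mul_apply, ih, map_smul, h, smul_smul, ← pow_succ]
  rw [avg_apply, Finset.sum_congr rfl (fun u _ => by
    rw [h1 u, smul_smul, ← mul_pow, inv_mul_cancel₀ hl, one_pow, one_smul]), Finset.sum_const,
    Finset.card_range, ← Nat.cast_smul_eq_nsmul L, smul_smul,
    inv_mul_cancel₀ (Nat.cast_ne_zero.2 ht.ne'), one_smul]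

theorem avg_eigen (G : V →ₗ[L] V) {l : L} (hl : l ≠ 0) {t : ℕ} {y : V}
    (h : (G ^ t) y = l ^ t • y) : G (avg G l t y) = l • avg G l t y := by
  rw [avg_apply, map_smul, smul_comm l]
  congr 1
  rw [map_sum, Finset.smul_sum]
  have h1 : ∀ u : ℕ, G ((l⁻¹) ^ u • (G ^ u) y) = l • ((l⁻¹) ^ (u + 1) • (G ^ (u + 1)) y) := by
    intro u
    rw [map_smul, smul_smul, pow_succ' G, Module.End.mul_apply, pow_succ' l⁻¹, ← mul_assoc,
      mul_inv_cancel₀ hl, one_mul]
  rw [Finset.sum_congr rfl (fun u _ => h1 u), ← Finset.smul_sum, ← Finset.smul_sum]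
  congr 1
  have h2 := Finset.sum_range_succ (fun u => (l⁻¹) ^ u • (G ^ u) y) t
  have h3 := Finset.sum_range_succ' (fun u => (l⁻¹) ^ u • (G ^ u) y) t
  simp only [pow_zero, one_smul, Module.End.one_apply] at h2 h3
  rw [h2, h, smul_smul, ← mul_pow, inv_mul_cancel₀ hl, one_pow, one_smul] at h3
  exact (add_right_cancel h3).symm

/-- Descent of the invariants. -/
theorem invariants [CharZero L] (G : V →ₗ[L] V) {l : L} (hl : l ≠ 0) (S S' : Set V)
    (h1 : ∀ y ∈ S, ∃ t : ℕ, 0 < t ∧ ∀ m : ℕ, 0 < m → avg G l (t * m) y ∈ S')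
    {x : V} (hx : x ∈ Submodule.span L S) (hG : G x = l • x) : x ∈ Submodule.span L S' := by
  have key : ∀ x ∈ Submodule.span L S, ∃ t : ℕ, 0 < t ∧ ∀ m : ℕ, 0 < m →
      avg G l (t * m) x ∈ Submodule.span L S' := by
    intro x hx
    induction hx using Submodule.span_induction with
    | mem y hy =>
      obtain ⟨t, ht, h⟩ := h1 y hy
      exact ⟨t, ht, fun m hm => Submodule.subset_span (h m hm)⟩
    | zero => exact ⟨1, one_pos, fun m _ => by rw [map_zero]; exact Submodule.zero_mem _⟩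
    | add a b _ _ ha hb =>
      obtain ⟨t, ht, h⟩ := ha
      obtain ⟨t', ht', h'⟩ := hb
      refine ⟨t * t', Nat.mul_pos ht ht', fun m hm => ?_⟩
      rw [map_add]
      refine Submodule.add_mem _ ?_ ?_
      · rw [mul_assoc]
        exact h _ (Nat.mul_pos ht' hm)
      · rw [mul_comm t t', mul_assoc]
        exact h' _ (Nat.mul_pos ht hm)
    | smul a b _ hb =>
      obtain ⟨t, ht, h⟩ := hb
      exact ⟨t, ht, fun m hm => by rw [map_smul]; exact Submodule.smul_mem _ _ (h m hm)⟩
  obtain ⟨t, ht, h⟩ := key x hx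
  have h2 := h 1 one_pos
  rwa [mul_one, avg_fixed G hl ht hG] at h2

end Pool.Agent.Zk39.K3
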