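import Pool.Agent.Zk39.K3.Defs
import Pool.Agent.H914R2.WeilBasic
import Pool.Agent.Zk39.K3.Lin

set_option autoImplicit false

/-!
The crystalline Tate conjecture over finite fields: definitions, descent.
-/

open CategoryTheory AlgebraicGeometry

universe u v

namespace Pool.Agent.Zk39.K3

open Pool.Agent.H914 Pool.Agent.W534 VarClass Obj WeilCohomology

variable {k : Type u} [Field k] {𝒱 : VarClass k} {ops : CycleOps 𝒱}
  {W : WeilCohomology.{u, v} ops} {p : ℕ}

theorem map_iter' {X : 𝒱.Obj} (f : X ⟶ X) (s : ℕ) (c : W.H X) :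
    W.map (iter f s) c = (W.map f)^[s] c := by
  induction s generalizing c with
  | zero => rw [iter, W.map_id]; rfl
  | succ s ih => rw [iter, W.map_comp, ih, Function.iterate_succ, Function.comp_apply]

theorem map_iter_mul' {X : 𝒱.Obj} (f : X ⟶ X) (s t : ℕ) (c : W.H X) :
    W.map (iter f (s * t)) c = (W.map (iter f s))^[t] c := by
  have : (⇑(W.map (iter f s)) : W.H X → W.H X) = (W.map f)^[s] := funext (map_iter' f s)
  rw [map_iter', this, Function.iterate_mul]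

theorem frob_mul' (Φ : FrobSystem W p) {X : 𝒱.Obj} {s : ℕ} {j : ℕ} {c : W.H X}
    (h : W.map (iter (Φ.Fr X) s) c = ((p : W.K) ^ (Φ.e X * s * j)) • c) (t : ℕ) :
    W.map (iter (Φ.Fr X) (s * t)) c = ((p : W.K) ^ (Φ.e X * (s * t) * j)) • c := by
  rw [map_iter_mul']
  induction t with
  | zero => simp
  | succ t ih =>
    rw [Function.iterate_succ_apply', ih, map_smul, h, smul_smul, ← pow_add]
    congr 2
    ring

/-- The classes of cycles of codimension `c`. -/
theorem cyc_sum (Y : 𝒱.Obj) (c t : ℕ) (f : ℕ → W.H Y) (q : ℕ → ℚ)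
    (h : ∀ u, ∃ z, Y.IsCyc c z ∧ W.cl Y z = f u) :
    ∃ z, Y.IsCyc c z ∧ W.cl Y z = ∑ u ∈ Finset.range t, (q u : W.K) • f u := by
  induction t with
  | zero => exact ⟨0, SmVar.IsCyc.zero _ _, by simp⟩
  | succ t ih =>
    obtain ⟨z, hz, h1⟩ := ih
    obtain ⟨z', hz', h2⟩ := h t
    refine ⟨z + q t • z', hz.add (hz'.smul _), ?_⟩
    rw [map_add, WeilCohomology.cl_smul, h1, h2, Finset.sum_range_succ]

theorem tate_of_semisimple (Φ : FrobSystem W p) (Y : 𝒱.Obj) (c : ℕ)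
    (h : SemisimpleTateIn Φ Y c) : TateIn Φ Y c := by
  rintro x ⟨hx, s, hs, h1⟩
  refine h s hs ⟨?_, hx⟩
  show x ∈ Module.End.maxGenEigenspace _ _
  rw [Module.End.mem_maxGenEigenspace]
  refine ⟨1, ?_⟩
  rw [pow_one, LinearMap.sub_apply, LinearMap.smul_apply, Module.End.one_apply, sub_eq_zero]
  refine Eq.trans h1 ?_
  congr 1
  unfold card
  push_cast
  rw [← pow_mul]

theorem crystalline_of_tate (Φ : FrobSystem W p) (Y : 𝒱.Obj) (c : ℕ) (h : TateIn Φ Y c) :
    CrystallineTate Φ Y c := by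
  intro s hs K₀ _ i H₀ hH x hx hgr hF
  have h1 : x ∈ spanCycles W Y c := h x ⟨hgr, s, hs, hF⟩
  have hl : ((p : W.K) ^ (Φ.e Y * s * c)) ≠ 0 := pow_ne_zero _ (Nat.cast_ne_zero.2 Φ.p_pos.ne')
  have h2 : x ∈ Submodule.span W.K (rationalClasses Φ Y s c) := by
    refine invariants (W.map (iter (Φ.Fr Y) s)).toLinearMap hl
      {y | ∃ q : ℕ, (q : ℤ) = c ∧ ∃ z, Y.IsCyc q z ∧ W.cl Y z = y} _ ?_ h1 hF
    rintro y ⟨q, hq, z, hz, rfl⟩
    have hqc : q = c := by exact_mod_cast hq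
    subst hqc
    obtain ⟨s', hs', h3⟩ := Φ.cyc hz
    refine ⟨s', hs', fun m hm => ?_⟩
    have hpow : ∀ t : ℕ, ((W.map (iter (Φ.Fr Y) s)).toLinearMap ^ t) (W.cl Y z) =
        W.map (iter (Φ.Fr Y) (s * t)) (W.cl Y z) := by
      intro t
      rw [Module.End.pow_apply, map_iter_mul']
      rfl
    refine ⟨?_, ?_⟩
    · rw [avg_apply]
      have h4 := cyc_sum (W := W) Y q (s' * m)
        (fun u => ((W.map (iter (Φ.Fr Y) s)).toLinearMap ^ u) (W.cl Y z))
        (fun u => (((p : ℚ) ^ (Φ.e Y * s * q))⁻¹) ^ u) (by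
        intro u
        rw [hpow]
        exact ⟨ops.pull (iter (Φ.Fr Y) (s * u)) z, ops.pull_mem _ hz, W.cl_pull _ _⟩)
      obtain ⟨z', hz', h5⟩ := h4
      refine ⟨((s' * m : ℕ) : ℚ)⁻¹ • z', hz'.smul _, ?_⟩
      rw [WeilCohomology.cl_smul, h5]
      push_cast
      rfl
    · refine avg_eigen (W.map (iter (Φ.Fr Y) s)).toLinearMap hl ?_
      have h4 := frob_mul' Φ h3 (s * m)
      rw [hpow, show s * (s' * m) = s' * (s * m) by ring, h4, ← pow_mul]
      congr 2
      ring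
  exact descent i H₀ hH.free (rationalClasses Φ Y s c) hH.mem hx h2

end Pool.Agent.Zk39.K3
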