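import Mathlib

set_option autoImplicit false

/-!
Forms of vector spaces over subfields.
-/

namespace Pool.Agent.Zk39.K3

/-- `H₀` is a `K₀`-subspace of the `L`-vector space `V`, finite subsets of `H₀` which are linearly independent
over `K₀` are linearly independent over `L`, and `H₀` contains `S`. -/
structure IsForm {L V K₀ : Type*} [Field L] [AddCommGroup V] [Module L V] [Field K₀] (i : K₀ →+* L)
    (H₀ : AddSubgroup V) (S : Set V) : Prop where
  smul_mem : ∀ (a : K₀) (x : V), x ∈ H₀ → i a • x ∈ H₀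
  free : ∀ T : Finset V, (∀ y ∈ T, y ∈ H₀) →
      (∀ a : V → K₀, ∑ y ∈ T, i (a y) • y = 0 → ∀ y ∈ T, a y = 0) →
      ∀ b : V → L, ∑ y ∈ T, b y • y = 0 → ∀ y ∈ T, b y = 0
  mem : S ⊆ H₀

/-- `x` is a `K₀`-linear combination of members of `S`. -/
def IsComb {L V K₀ : Type*} [Field L] [AddCommGroup V] [Module L V] [Field K₀] (i : K₀ →+* L)
    (S : Set V) (x : V) : Prop :=
  ∃ (T : Finset V) (a : V → K₀), (T : Set V) ⊆ S ∧ x = ∑ y ∈ T, i (a y) • y

end Pool.Agent.Zk39.K3
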