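import Pool.Agent.W534.PoleDefs
import Pool.Agent.Zk39.K3.Form

set_option autoImplicit false

open CategoryTheory AlgebraicGeometry

universe u v

namespace Pool.Agent.Zk39.K3

open Pool.Agent.H914 Pool.Agent.W534 VarClass Obj WeilCohomology

variable {k : Type u} [Field k] {𝒱 : VarClass k} {ops : CycleOps 𝒱}
  {W : WeilCohomology.{u, v} ops} {p : ℕ}

/-- The classes of the cycles of codimension `c` on `Y` (with rational coefficients) which are defined
over the field with `Q = p ^ (e s)` elements, `e = Φ.e Y`: the Frobenius endomorphism relative to this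
field multiplies them by `Q ^ c`. -/
def rationalClasses (Φ : FrobSystem W p) (Y : 𝒱.Obj) (s c : ℕ) : Set (W.H Y) :=
  {y | (∃ z, Y.IsCyc c z ∧ W.cl Y z = y) ∧
    W.map (iter (Φ.Fr Y) s) y = ((p : W.K) ^ (Φ.e Y * s * c)) • y}

/-- The crystalline Tate conjecture for `Y` in codimension `c`, over the fields with `Q = p ^ (e s)`
elements: for every form `H₀` (over a subfield `K₀`) of the cohomology of `Y` which contains the classes of cycles
over the field with `Q` elements, every class `x` in `H₀` of degree `2 c` with `F x = Q ^ c x` is a linear
combination, with coefficients in `K₀`, of classes of cycles of codimension `c` over the field with `Q`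
elements. In the intended use `K₀` is the fraction field of the ring of Witt vectors of the field with `Q`
elements, `H₀` is the crystalline cohomology of the model of `Y`, and `W` is the crystalline
cohomology with coefficients extended to an algebraic closure of `K₀`. -/
def CrystallineTate (Φ : FrobSystem W p) (Y : 𝒱.Obj) (c : ℕ) : Prop :=
  ∀ s : ℕ, 0 < s → ∀ (K₀ : Type v) [Field K₀] (i : K₀ →+* W.K) (H₀ : AddSubgroup (W.H Y)),
    IsForm i H₀ (rationalClasses Φ Y s c) → ∀ x ∈ H₀, x ∈ W.gr Y (2 * c) →
      W.map (iter (Φ.Fr Y) s) x = ((p : W.K) ^ (Φ.e Y * s * c)) • x →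
        IsComb i (rationalClasses Φ Y s c) x

end Pool.Agent.Zk39.K3
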